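import Mathlib
import Pool.Agent.Lib.MP_85963d_gt.Interfaces

/-!
# Module WS: weights of admissible functions (helper98)
-/

set_option autoImplicit false

open MeasureTheory Set Filter Topology Quaternion
open scoped Real ContDiff

namespace Pool.Agent.MP85963d.H98

open SF

theorem mul_ne_zero_right {ρ : ℍ} (hρ : ρ ≠ 0) {x : ℍ} : x * ρ ≠ 0 ↔ x ≠ 0 := by
  simp [hρ]

theorem qI_ne_zero : qI ≠ 0 := fun h => by
  have := isImUnit_I.norm_eq
  simp [h] at this

theorem qJ_ne_zero : qJ ≠ 0 := fun h => by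
  have := isImUnit_J.norm_eq
  simp [h] at this

theorem qK_ne_zero : qK ≠ 0 := fun h => by
  have := isImUnit_K.norm_eq
  simp [h] at this

/-- right translate of a right derivative -/
theorem R_rmul {F G : SF} {ρ a b : ℍ} (hρ : ρ ≠ 0) (hab : ρ * a = b * ρ)
    (h : ∀ x : ℍ, F (x * ρ) = G x) (x : ℍ) : (R a F) (x * ρ) = (R b G) x := by
  by_cases hx : x = 0
  · subst hx; rw [zero_mul, map_zero', map_zero']
  · rw [R_apply, R_apply]
    have h1 : HasFDerivAt F (fderiv ℝ F (x * ρ)) (rm ρ x) :=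
      F.hasFDerivAt (by simpa using mul_ne_zero hx hρ)
    have h2 := h1.comp x ((rm ρ).hasFDerivAt (x := x))
    have e : (F : ℍ → ℝ) ∘ (rm ρ) = G := by
      funext y; simp only [Function.comp, rm_apply, h]
    rw [e] at h2
    rw [h2.fderiv]
    simp only [ContinuousLinearMap.comp_apply, rm_apply, mul_assoc, hab]

/-- left translate of a right derivative -/
theorem R_lmul {F G : SF} {ρ : ℍ} (hρ : ρ ≠ 0) (a : ℍ)
    (h : ∀ x : ℍ, F (ρ * x) = G x) (x : ℍ) : (R a F) (ρ * x) = (R a G) x := by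
  by_cases hx : x = 0
  · subst hx; rw [mul_zero, map_zero', map_zero']
  · rw [R_apply, R_apply]
    have h1 : HasFDerivAt F (fderiv ℝ F (ρ * x)) (lm ρ x) :=
      F.hasFDerivAt (by simpa using mul_ne_zero hρ hx)
    have h2 := h1.comp x ((lm ρ).hasFDerivAt (x := x))
    have e : (F : ℍ → ℝ) ∘ (lm ρ) = G := by
      funext y; simp only [Function.comp, lm_apply, h]
    rw [e] at h2
    rw [h2.fderiv]
    simp only [ContinuousLinearMap.comp_apply, lm_apply, mul_assoc]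

theorem DX_lmul {F G : SF} {ρ : ℍ} (hρ : ρ ≠ 0)
    (h : ∀ x : ℍ, F (ρ * x) = G x) (x : ℍ) : (DX F) (ρ * x) = (DX G) x :=
  R_lmul hρ _ h x

theorem DX_mulK {F : SF} (h : ∀ x : ℍ, F (x * qK) = F x) (x : ℍ) :
    (DX F) (x * qK) = (DX F) x := by
  refine R_rmul qK_ne_zero ?_ h x
  simp

theorem DX_mulI {F G : SF} (h : ∀ x : ℍ, F (x * qI) = G x) (x : ℍ) :
    (DX F) (x * qI) = -(DX G) x := by
  have e : qI * ((1 / 2 : ℝ) • qK) = (-((1 / 2 : ℝ) • qK)) * qI := by
    rw [mul_smul_comm, neg_mul, smul_mul_assoc, qI_mul_qK, qK_mul_qI, smul_neg]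
  have := R_rmul qI_ne_zero e h x
  rw [DX, this, R_neg, neg_apply]

theorem DXDX_mulI {F : SF} (h : ∀ x : ℍ, F (x * qI) = F x) (x : ℍ) :
    (DX (DX F)) (x * qI) = (DX (DX F)) x := by
  have h1 : ∀ x : ℍ, (DX F) (x * qI) = (-(DX F) : SF) x := fun x => by
    rw [DX_mulI h, neg_apply]
  rw [DX_mulI h1, map_neg, neg_apply, neg_neg]

theorem rot_pi' (a : ℍ) : rot a π = a := rot_pi a

theorem IsU.mulI {f : ℍ → ℝ} (h : IsU f) (x : ℍ) : f (x * qI) = f x := by
  have := h.rotI x π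
  rwa [rot_pi] at this

theorem IsU.klein {f : ℍ → ℝ} (h : IsU f) : IsKlein f := ⟨IsU.mulI h, h.mulK⟩

/-- the Euclidean length of `(p, Xp)` is positive -/
theorem sq_pos_of_adm {p : SF} (h : Adm p) {x : ℍ} (hx : x ≠ 0) :
    0 < p x ^ 2 + (DX p) x ^ 2 := by
  have := h.pos x hx
  positivity

theorem sqrt_smooth {p : SF} (h : ∀ x : ℍ, x ≠ 0 → 0 < p x ^ 2 + (DX p) x ^ 2) :
    ContDiffOn ℝ ∞ (fun x : ℍ => Real.sqrt (p x ^ 2 + (DX p) x ^ 2)) {0}ᶜ := by
  apply ContDiffOn.sqrt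
  · exact (p.smooth.pow 2).add ((DX p).smooth.pow 2)
  · intro x hx; exact (h x hx).ne'

theorem exists_wS {p : SF} (h : Adm p) : ∃ w : SF, ∀ x : ℍ, x ≠ 0 → w x = wf p x := by
  refine ⟨of (wf p) ?_ ?_, fun x hx => of_apply hx⟩
  · unfold wf
    refine ContDiffOn.div (p.smooth.add (DX (DX p)).smooth)
      ((sqrt_smooth fun x hx => sq_pos_of_adm h hx).pow 3) ?_
    intro x hx
    exact pow_ne_zero _ (Real.sqrt_pos.2 (sq_pos_of_adm h hx)).ne'
  · intro r x hr _
    simp only [wf, SF.hom _ hr]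

theorem exists_LgS {p : SF} (h : Adm p) :
    ∃ F : SF, ∀ x : ℍ, x ≠ 0 → F x = Lg (p x) ((DX p) x) := by
  refine ⟨of (fun x => Lg (p x) ((DX p) x)) ?_ ?_, fun x hx => of_apply hx⟩
  · unfold Lg
    refine ContDiffOn.div (sqrt_smooth fun x hx => sq_pos_of_adm h hx) (p.smooth.pow 2) ?_
    intro x hx
    exact pow_ne_zero _ (h.pos x hx).ne'
  · intro r x hr _
    simp only [SF.hom _ hr]

theorem wS_apply' {p : SF} (h : Adm p) {x : ℍ} (hx : x ≠ 0) : (wS p) x = wf p x := by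
  have h1 := exists_wS h
  rw [wS, dif_pos h1]
  exact h1.choose_spec x hx

theorem LgS_apply' {p : SF} (h : Adm p) {x : ℍ} (hx : x ≠ 0) :
    (LgS p) x = Lg (p x) ((DX p) x) := by
  have h1 := exists_LgS h
  rw [LgS, dif_pos h1]
  exact h1.choose_spec x hx

theorem klein_of {F : SF} {f : ℍ → ℝ} (h : ∀ x : ℍ, x ≠ 0 → F x = f x)
    (hI : ∀ x : ℍ, x ≠ 0 → f (x * qI) = f x) (hK : ∀ x : ℍ, x ≠ 0 → f (x * qK) = f x) :
    IsKlein F := by
  constructor
  · intro x
    by_cases hx : x = 0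
    · subst hx; rw [zero_mul]
    · rw [h _ ((mul_ne_zero_right qI_ne_zero).2 hx), h x hx, hI x hx]
  · intro x
    by_cases hx : x = 0
    · subst hx; rw [zero_mul]
    · rw [h _ ((mul_ne_zero_right qK_ne_zero).2 hx), h x hx, hK x hx]

theorem rotInv_of {F : SF} {f : ℍ → ℝ} (h : ∀ x : ℍ, x ≠ 0 → F x = f x)
    (hR : ∀ (α : ℝ) (x : ℍ), x ≠ 0 → f (rot qK α * x) = f x)
    (hJ : ∀ x : ℍ, x ≠ 0 → f (qJ * x) = f x) :
    RotInv F := by
  constructor
  · intro α x
    by_cases hx : x = 0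
    · subst hx; rw [mul_zero]
    · rw [h _ (lrot_ne_zero isImUnit_K hx α), h x hx, hR α x hx]
  · intro x
    by_cases hx : x = 0
    · subst hx; rw [mul_zero]
    · rw [h _ (mul_ne_zero qJ_ne_zero hx), h x hx, hJ x hx]

theorem DX_one : DX (1 : SF) = 0 := by
  exact Derivation.map_one_eq_zero _

theorem seg_apply (p₀ p₁ : SF) (s : ℝ) (x : ℍ) :
    (seg p₀ p₁ s) x = (1 - s) * p₀ x + s * p₁ x := by
  rw [seg, add_apply, smul_apply, smul_apply]

theorem map_seg (D : SF →ₗ[ℝ] SF) (p₀ p₁ : SF) (s : ℝ) :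
    D (seg p₀ p₁ s) = seg (D p₀) (D p₁) s := by
  rw [seg, seg, map_add, map_smul, map_smul]

theorem DX_seg (p₀ p₁ : SF) (s : ℝ) : DX (seg p₀ p₁ s) = seg (DX p₀) (DX p₁) s := by
  rw [seg, seg, map_add, Derivation.map_smul, Derivation.map_smul]

theorem comb_pos {a b s : ℝ} (ha : 0 < a) (hb : 0 < b) (hs : s ∈ Icc (0:ℝ) 1) :
    0 < (1 - s) * a + s * b := by
  obtain ⟨h0, h1⟩ := hs
  rcases eq_or_lt_of_le h0 with h | h
  · subst h; simpa using ha
  · have := mul_pos h hb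
    have := mul_nonneg (sub_nonneg.2 h1) ha.le
    linarith

theorem isU_one : IsU (1 : SF) := by
  constructor
  · intro x t
    by_cases hx : x = 0
    · subst hx; rw [zero_mul]
    · rw [one_apply hx, one_apply (rrot_ne_zero isImUnit_I hx t)]
  · intro x
    by_cases hx : x = 0
    · subst hx; rw [zero_mul]
    · rw [one_apply hx, one_apply (mul_ne_zero hx qK_ne_zero)]

theorem adm_one' : Adm (1 : SF) := by
  refine ⟨isU_one, fun x hx => by rw [one_apply hx]; exact one_pos, fun x hx => ?_⟩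
  rw [DX_one, map_zero, one_apply hx, zero_apply, add_zero]; exact one_pos

end Pool.Agent.MP85963d.H98

namespace Pool.Agent.MP85963d

open SF H98

theorem ws_holds : WSFacts where
  adm_one := adm_one'
  wS_apply p h x hx := wS_apply' h hx
  wS_pos p h x hx := by
    rw [wS_apply' h hx, wf]
    exact div_pos (h.conv x hx) (pow_pos (Real.sqrt_pos.2 (sq_pos_of_adm h hx)) 3)
  wS_klein p h := by
    refine klein_of (fun x hx => wS_apply' h hx) ?_ ?_
    · intro x _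
      rw [wf, wf, IsU.mulI h.isU, DX_mulI (IsU.mulI h.isU), DXDX_mulI (IsU.mulI h.isU), neg_sq]
    · intro x _
      rw [wf, wf, h.isU.mulK, DX_mulK h.isU.mulK, DX_mulK (DX_mulK h.isU.mulK)]
  wS_rotInv p h hr := by
    refine rotInv_of (fun x hx => wS_apply' h hx) ?_ ?_
    · intro α x _
      have h0 := rot_ne_zero isImUnit_K α
      rw [wf, wf, hr.rot, DX_lmul h0 (hr.rot α), DX_lmul h0 (DX_lmul h0 (hr.rot α))]
    · intro x _
      rw [wf, wf, hr.mulJ, DX_lmul qJ_ne_zero hr.mulJ,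
        DX_lmul qJ_ne_zero (DX_lmul qJ_ne_zero hr.mulJ)]
  wS_one := by
    apply ext'
    intro x hx
    rw [wS_apply' adm_one' hx, wf, DX_one, map_zero, one_apply hx, zero_apply]
    norm_num
  LgS_apply p h x hx := LgS_apply' h hx
  LgS_klein p h := by
    refine klein_of (fun x hx => LgS_apply' h hx) ?_ ?_
    · intro x _
      rw [Lg, Lg, IsU.mulI h.isU, DX_mulI (IsU.mulI h.isU), neg_sq]
    · intro x _
      rw [Lg, Lg, h.isU.mulK, DX_mulK h.isU.mulK]
  seg_adm p₀ p₁ h₀ h₁ s hs := by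
    refine ⟨⟨fun x t => ?_, fun x => ?_⟩, fun x hx => ?_, fun x hx => ?_⟩
    · rw [seg_apply, seg_apply, h₀.isU.rotI, h₁.isU.rotI]
    · rw [seg_apply, seg_apply, h₀.isU.mulK, h₁.isU.mulK]
    · rw [seg_apply]; exact comb_pos (h₀.pos x hx) (h₁.pos x hx) hs
    · rw [DX_seg, DX_seg, seg_apply, seg_apply]
      have := comb_pos (h₀.conv x hx) (h₁.conv x hx) hs
      linarith
  seg_rotInv p₀ p₁ h₀ h₁ s := by
    refine ⟨fun α x => ?_, fun x => ?_⟩
    · rw [seg_apply, seg_apply, h₀.rot, h₁.rot]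
    · rw [seg_apply, seg_apply, h₀.mulJ, h₁.mulJ]
  rotInv_one := by
    refine rotInv_of (f := fun _ => 1) (fun x hx => one_apply hx) ?_ ?_
    · intro _ _ _; rfl
    · intro _ _; rfl

end Pool.Agent.MP85963d
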