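import Mathlib
import Pool.Agent.Lib.MP_85963d_gt.H98.WS

/-!
# Module FAM: uniform bounds on segments of admissible functions (helper98)
-/

set_option autoImplicit false

open MeasureTheory Set Filter Topology Quaternion
open scoped Real ContDiff

namespace Pool.Agent.MP85963d.H98

open SF

theorem word_nil (F : SF) : word [] F = F := rfl

theorem word_cons (i : Fin 6) (l : List (Fin 6)) (F : SF) : word (i :: l) F = Dlet i (word l F) :=
  rfl

theorem word_concat (i : Fin 6) (l : List (Fin 6)) (F : SF) :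
    word (l ++ [i]) F = word l (Dlet i F) := by
  induction l with
  | nil => rfl
  | cons j l ih => rw [List.cons_append, word_cons, ih, word_cons]

theorem word_sub (l : List (Fin 6)) (F G : SF) : word l (F - G) = word l F - word l G := by
  induction l with
  | nil => rfl
  | cons j l ih => rw [word_cons, ih, map_sub, word_cons, word_cons]

theorem word_add (l : List (Fin 6)) (F G : SF) : word l (F + G) = word l F + word l G := by
  induction l with
  | nil => rfl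
  | cons j l ih => rw [word_cons, ih, map_add, word_cons, word_cons]

/-- elements of `SF` are bounded -/
theorem exists_bound (F : SF) : ∃ B : ℝ, 0 ≤ B ∧ ∀ x : ℍ, |F x| ≤ B := by
  have hc : IsCompact (Metric.sphere (0:ℍ) 1) := isCompact_sphere _ _
  have hs : Metric.sphere (0:ℍ) 1 ⊆ {0}ᶜ := by
    rintro x hx rfl
    simp at hx
  obtain ⟨B, hB⟩ := hc.exists_bound_of_continuousOn (F.continuousOn.mono hs)
  refine ⟨max B 0, le_max_right _ _, fun x => ?_⟩
  by_cases hx : x = 0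
  · subst hx; rw [map_zero', abs_zero]; exact le_max_right _ _
  · have hn : ‖x‖ ≠ 0 := norm_ne_zero_iff.2 hx
    have h1 : ‖x‖⁻¹ • x ∈ Metric.sphere (0:ℍ) 1 := by
      rw [mem_sphere_zero_iff_norm, norm_smul, norm_inv, norm_norm, inv_mul_cancel₀ hn]
    have h2 := hB _ h1
    rw [F.hom (inv_ne_zero hn), Real.norm_eq_abs] at h2
    exact h2.trans (le_max_left _ _)

/-- positive functions are bounded below by a positive constant -/
theorem exists_low {f : ℍ → ℝ} (hf : ContinuousOn f {0}ᶜ)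
    (hh : ∀ (r : ℝ) (x : ℍ), r ≠ 0 → x ≠ 0 → f (r • x) = f x)
    (hp : ∀ x : ℍ, x ≠ 0 → 0 < f x) :
    ∃ c : ℝ, 0 < c ∧ ∀ x : ℍ, x ≠ 0 → c ≤ f x := by
  have hc : IsCompact (Metric.sphere (0:ℍ) 1) := isCompact_sphere _ _
  have hs : Metric.sphere (0:ℍ) 1 ⊆ {0}ᶜ := by
    rintro x hx rfl
    simp at hx
  have hne : (Metric.sphere (0:ℍ) 1).Nonempty := ⟨1, by simp⟩
  obtain ⟨z, hz, hmin⟩ := hc.exists_isMinOn hne (hf.mono hs)
  refine ⟨f z, hp z (hs hz), fun x hx => ?_⟩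
  have hn : ‖x‖ ≠ 0 := norm_ne_zero_iff.2 hx
  have h1 : ‖x‖⁻¹ • x ∈ Metric.sphere (0:ℍ) 1 := by
    rw [mem_sphere_zero_iff_norm, norm_smul, norm_inv, norm_norm, inv_mul_cancel₀ hn]
  have h2 := isMinOn_iff.1 hmin _ h1
  rwa [hh _ _ (inv_ne_zero hn) hx] at h2

theorem exists_low_SF {F : SF} (hp : ∀ x : ℍ, x ≠ 0 → 0 < F x) :
    ∃ c : ℝ, 0 < c ∧ ∀ x : ℍ, x ≠ 0 → c ≤ F x :=
  exists_low F.continuousOn (fun r x hr _ => F.hom hr x) hp

/-- bounded Lipschitz families -/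
structure G0 (F : ℝ → SF) : Prop where
  bd : ∃ B : ℝ, 0 ≤ B ∧ ∀ s ∈ Icc (0:ℝ) 1, ∀ x : ℍ, |(F s) x| ≤ B
  lip : ∃ L : ℝ, 0 ≤ L ∧ ∀ s ∈ Icc (0:ℝ) 1, ∀ s' ∈ Icc (0:ℝ) 1, ∀ x : ℍ,
    |(F s) x - (F s') x| ≤ L * |s - s'|

theorem G0.add {F G : ℝ → SF} (hF : G0 F) (hG : G0 G) : G0 (fun s => F s + G s) := by
  obtain ⟨⟨B, hB0, hB⟩, ⟨L, hL0, hL⟩⟩ := hF
  obtain ⟨⟨B', hB0', hB'⟩, ⟨L', hL0', hL'⟩⟩ := hG
  refine ⟨⟨B + B', by positivity, fun s hs x => ?_⟩, ⟨L + L', by positivity,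
    fun s hs s' hs' x => ?_⟩⟩
  · rw [add_apply]
    exact (abs_add_le _ _).trans (add_le_add (hB s hs x) (hB' s hs x))
  · rw [add_apply, add_apply]
    have h1 := hL s hs s' hs' x
    have h2 := hL' s hs s' hs' x
    have e : (F s) x + (G s) x - ((F s') x + (G s') x)
        = ((F s) x - (F s') x) + ((G s) x - (G s') x) := by ring
    rw [e]
    refine (abs_add_le _ _).trans ?_
    rw [add_mul]
    exact add_le_add h1 h2

theorem G0.mul {F G : ℝ → SF} (hF : G0 F) (hG : G0 G) : G0 (fun s => F s * G s) := by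
  obtain ⟨⟨B, hB0, hB⟩, ⟨L, hL0, hL⟩⟩ := hF
  obtain ⟨⟨B', hB0', hB'⟩, ⟨L', hL0', hL'⟩⟩ := hG
  refine ⟨⟨B * B', by positivity, fun s hs x => ?_⟩, ⟨L * B' + B * L', by positivity,
    fun s hs s' hs' x => ?_⟩⟩
  · rw [mul_apply, abs_mul]
    exact mul_le_mul (hB s hs x) (hB' s hs x) (abs_nonneg _) hB0
  · rw [mul_apply, mul_apply]
    have h1 := hL s hs s' hs' x
    have h2 := hL' s hs s' hs' x
    have e : (F s) x * (G s) x - ((F s') x * (G s') x)
        = ((F s) x - (F s') x) * (G s) x + (F s') x * ((G s) x - (G s') x) := by ring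
    rw [e]
    refine (abs_add_le _ _).trans ?_
    rw [abs_mul, abs_mul]
    have h3 := mul_le_mul h1 (hB' s hs x) (abs_nonneg _) (by positivity)
    have h4 := mul_le_mul (hB s' hs' x) h2 (abs_nonneg _) hB0
    nlinarith

theorem G0.smul {c : ℝ → ℝ} {F : ℝ → SF} (hF : G0 F)
    (hc : ∀ s ∈ Icc (0:ℝ) 1, |c s| ≤ 1)
    (hc' : ∀ s ∈ Icc (0:ℝ) 1, ∀ s' ∈ Icc (0:ℝ) 1, |c s - c s'| ≤ |s - s'|) :
    G0 (fun s => c s • F s) := by
  obtain ⟨⟨B, hB0, hB⟩, ⟨L, hL0, hL⟩⟩ := hF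
  refine ⟨⟨B, hB0, fun s hs x => ?_⟩, ⟨L + B, by positivity,
    fun s hs s' hs' x => ?_⟩⟩
  · rw [smul_apply, abs_mul]
    calc |c s| * |(F s) x| ≤ 1 * B := mul_le_mul (hc s hs) (hB s hs x) (abs_nonneg _) zero_le_one
      _ = B := one_mul _
  · rw [smul_apply, smul_apply]
    have h1 := hL s hs s' hs' x
    have h2 := hc' s hs s' hs'
    have e : c s * (F s) x - c s' * (F s') x
        = c s * ((F s) x - (F s') x) + (c s - c s') * (F s') x := by ring
    rw [e]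
    refine (abs_add_le _ _).trans ?_
    rw [abs_mul, abs_mul]
    have h3 := mul_le_mul (hc s hs) h1 (abs_nonneg _) zero_le_one
    have h4 := mul_le_mul h2 (hB s' hs' x) (abs_nonneg _) (abs_nonneg _)
    nlinarith

theorem G0.const (F : SF) : G0 (fun _ => F) := by
  obtain ⟨B, hB0, hB⟩ := exists_bound F
  exact ⟨⟨B, hB0, fun _ _ x => hB x⟩, ⟨0, le_rfl, fun _ _ _ _ x => by simp⟩⟩

/-- families with controlled derivatives up to order `N` -/
def GF : ℕ → (ℝ → SF) → Prop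
  | 0, F => G0 F
  | N + 1, F => G0 F ∧ ∀ i, GF N (fun s => Dlet i (F s))

theorem GF.zero {N : ℕ} {F : ℝ → SF} (h : GF N F) : G0 F := by
  cases N with
  | zero => exact h
  | succ N => exact h.1

theorem GF.pred {N : ℕ} : ∀ {F : ℝ → SF}, GF (N + 1) F → GF N F := by
  induction N with
  | zero => intro F h; exact h.1
  | succ N ih => intro F h; exact ⟨h.1, fun i => ih (h.2 i)⟩

theorem GF.add {N : ℕ} : ∀ {F G : ℝ → SF}, GF N F → GF N G → GF N (fun s => F s + G s) := by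
  induction N with
  | zero => intro F G hF hG; exact G0.add hF hG
  | succ N ih =>
    intro F G hF hG
    refine ⟨G0.add hF.1 hG.1, fun i => ?_⟩
    simp only [map_add]
    exact ih (hF.2 i) (hG.2 i)

theorem GF.mul {N : ℕ} : ∀ {F G : ℝ → SF}, GF N F → GF N G → GF N (fun s => F s * G s) := by
  induction N with
  | zero => intro F G hF hG; exact G0.mul hF hG
  | succ N ih =>
    intro F G hF hG
    refine ⟨G0.mul hF.1 hG.1, fun i => ?_⟩
    simp only [Derivation.leibniz, smul_eq_mul]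
    exact (ih hF.pred (hG.2 i)).add (ih hG.pred (hF.2 i))

theorem GF.smul {N : ℕ} {c : ℝ → ℝ} (hc : ∀ s ∈ Icc (0:ℝ) 1, |c s| ≤ 1)
    (hc' : ∀ s ∈ Icc (0:ℝ) 1, ∀ s' ∈ Icc (0:ℝ) 1, |c s - c s'| ≤ |s - s'|) :
    ∀ {F : ℝ → SF}, GF N F → GF N (fun s => c s • F s) := by
  induction N with
  | zero => intro F hF; exact G0.smul hF hc hc'
  | succ N ih =>
    intro F hF
    refine ⟨G0.smul hF.1 hc hc', fun i => ?_⟩
    simp only [Derivation.map_smul]
    exact ih (hF.2 i)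

theorem GF.const {N : ℕ} : ∀ (F : SF), GF N (fun _ => F) := by
  induction N with
  | zero => intro F; exact G0.const F
  | succ N ih => intro F; exact ⟨G0.const F, fun i => ih _⟩

theorem GF.neg {N : ℕ} {F : ℝ → SF} (h : GF N F) : GF N (fun s => - F s) := by
  have := h.smul (c := fun _ => -1) (by simp) (by simp)
  simpa using this

theorem GF.seg {N : ℕ} (p₀ p₁ : SF) : GF N (fun s => seg p₀ p₁ s) := by
  unfold MP85963d.seg
  refine (GF.smul ?_ ?_ (GF.const p₀)).add (GF.smul ?_ ?_ (GF.const p₁))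
  · rintro s ⟨h0, h1⟩; rw [abs_le]; constructor <;> linarith
  · intro s _ s' _
    have e : 1 - s - (1 - s') = -(s - s') := by ring
    rw [e, abs_neg]
  · rintro s ⟨h0, h1⟩; rw [abs_le]; constructor <;> linarith
  · intro s _ s' _; exact le_rfl

theorem GF.bound {N : ℕ} : ∀ {F : ℝ → SF}, GF N F → ∃ B : ℝ, 0 ≤ B ∧ ∀ s ∈ Icc (0:ℝ) 1,
    ∀ l : List (Fin 6), l.length ≤ N → ∀ x : ℍ, |(word l (F s)) x| ≤ B := by
  induction N with
  | zero =>
    intro F hF
    obtain ⟨B, hB0, hB⟩ := (GF.zero hF).bd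
    refine ⟨B, hB0, fun s hs l hl x => ?_⟩
    rw [Nat.le_zero, List.length_eq_zero_iff] at hl
    subst hl
    exact hB s hs x
  | succ N ih =>
    intro F hF
    obtain ⟨B, hB0, hB⟩ := hF.1.bd
    choose B' hB0' hB' using fun i => ih (hF.2 i)
    refine ⟨B + ∑ i, B' i, add_nonneg hB0 (Finset.sum_nonneg fun i _ => hB0' i),
      fun s hs l hl x => ?_⟩
    rcases List.eq_nil_or_concat l with h | ⟨l', i, h⟩
    · subst h
      rw [word_nil]
      have := Finset.sum_nonneg fun (i : Fin 6) (_ : i ∈ Finset.univ) => hB0' i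
      linarith [hB s hs x]
    · rw [List.concat_eq_append] at h
      subst h
      rw [word_concat]
      have h1 : l'.length ≤ N := by simpa using hl
      have h2 := hB' i s hs l' h1 x
      have h3 : B' i ≤ ∑ i, B' i :=
        Finset.single_le_sum (fun i _ => hB0' i) (Finset.mem_univ i)
      linarith

theorem GF.lip {N : ℕ} : ∀ {F : ℝ → SF}, GF N F → ∃ L : ℝ, 0 ≤ L ∧ ∀ s ∈ Icc (0:ℝ) 1,
    ∀ s' ∈ Icc (0:ℝ) 1, ∀ l : List (Fin 6), l.length ≤ N → ∀ x : ℍ,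
    |(word l (F s)) x - (word l (F s')) x| ≤ L * |s - s'| := by
  induction N with
  | zero =>
    intro F hF
    obtain ⟨B, hB0, hB⟩ := (GF.zero hF).lip
    refine ⟨B, hB0, fun s hs s' hs' l hl x => ?_⟩
    rw [Nat.le_zero, List.length_eq_zero_iff] at hl
    subst hl
    exact hB s hs s' hs' x
  | succ N ih =>
    intro F hF
    obtain ⟨B, hB0, hB⟩ := hF.1.lip
    choose B' hB0' hB' using fun i => ih (hF.2 i)
    refine ⟨B + ∑ i, B' i, add_nonneg hB0 (Finset.sum_nonneg fun i _ => hB0' i),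
      fun s hs s' hs' l hl x => ?_⟩
    have hss := abs_nonneg (s - s')
    rcases List.eq_nil_or_concat l with h | ⟨l', i, h⟩
    · subst h
      rw [word_nil, word_nil]
      have h4 := Finset.sum_nonneg fun (i : Fin 6) (_ : i ∈ Finset.univ) => hB0' i
      have := hB s hs s' hs' x
      nlinarith [mul_nonneg h4 hss]
    · rw [List.concat_eq_append] at h
      subst h
      rw [word_concat, word_concat]
      have h1 : l'.length ≤ N := by simpa using hl
      have h2 := hB' i s hs s' hs' l' h1 x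
      have h3 : B' i ≤ ∑ i, B' i :=
        Finset.single_le_sum (fun i _ => hB0' i) (Finset.mem_univ i)
      have h4 : B' i * |s - s'| ≤ (B + ∑ i, B' i) * |s - s'| :=
        mul_le_mul_of_nonneg_right (by linarith) hss
      linarith

/-! ### the reciprocal of the length of `(p, Xp)` -/

/-- the function `(p² + (Xp)²)^{-1/2}` -/
noncomputable def isf (p : SF) (x : ℍ) : ℝ := (Real.sqrt (p x ^ 2 + (DX p) x ^ 2))⁻¹

theorem exists_isS {p : SF} (h : Adm p) : ∃ S : SF, ∀ x : ℍ, x ≠ 0 → S x = isf p x := by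
  refine ⟨of (isf p) ?_ ?_, fun x hx => of_apply hx⟩
  · unfold isf
    refine ContDiffOn.inv (sqrt_smooth fun x hx => sq_pos_of_adm h hx) ?_
    intro x hx
    exact (Real.sqrt_pos.2 (sq_pos_of_adm h hx)).ne'
  · intro r x hr _
    simp only [isf, SF.hom _ hr]

/-- the element of `SF` given by `isf` -/
noncomputable def isS (p : SF) : SF := by
  classical exact if h : ∃ w : SF, ∀ x : ℍ, x ≠ 0 → w x = isf p x then h.choose else 0

theorem isS_apply {p : SF} (h : Adm p) {x : ℍ} (hx : x ≠ 0) : (isS p) x = isf p x := by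
  have h1 := exists_isS h
  rw [isS, dif_pos h1]
  exact h1.choose_spec x hx

theorem isS_sq {p : SF} (h : Adm p) : isS p * isS p * (p * p + DX p * DX p) = 1 := by
  apply ext'
  intro x hx
  have h1 := sq_pos_of_adm h hx
  have h2 := Real.sq_sqrt h1.le
  have h3 := Real.sqrt_pos.2 h1
  rw [mul_apply, mul_apply, add_apply, mul_apply, mul_apply, isS_apply h hx, isf, one_apply hx]
  field_simp
  rw [h2]

theorem wS_eq {p : SF} (h : Adm p) : wS p = (p + DX (DX p)) * (isS p * isS p * isS p) := by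
  apply ext'
  intro x hx
  have h1 := sq_pos_of_adm h hx
  have h3 := Real.sqrt_pos.2 h1
  rw [wS_apply' h hx, wf, mul_apply, mul_apply, mul_apply, add_apply, isS_apply h hx, isf]
  field_simp

theorem D_isS {p : SF} (h : Adm p) (D : Derivation ℝ SF SF) :
    D (isS p) = -(isS p * isS p * isS p * (p * D p + DX p * D (DX p))) := by
  have h1 := congrArg D (isS_sq h)
  have h2 := isS_sq h
  rw [Derivation.map_one_eq_zero] at h1
  simp only [Derivation.leibniz, map_add, smul_eq_mul] at h1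
  generalize isS p = S at *
  generalize D S = T at *
  generalize DX p = Q at *
  generalize D p = P' at *
  generalize D Q = Q' at *
  have h3 : (2 : SF) * (T + S * S * S * (p * P' + Q * Q')) = 0 := by
    linear_combination S * h1 - 2 * T * h2
  have h4 : (2 : ℝ) • (T + S * S * S * (p * P' + Q * Q')) = 0 := by
    rw [two_smul, ← two_mul]; exact h3
  have h5 := (smul_eq_zero.1 h4).resolve_left (by norm_num)
  rw [add_eq_zero_iff_eq_neg] at h5
  exact h5

/-- derivatives of `X p` -/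
theorem GF.DX {N : ℕ} {F : ℝ → SF} (h : GF (N + 1) F) : GF N (fun s => DX (F s)) := h.2 0

theorem G0.isS {P : ℝ → SF} (h : ∀ s ∈ Icc (0:ℝ) 1, Adm (P s)) {c : ℝ} (hc : 0 < c)
    (hlow : ∀ s ∈ Icc (0:ℝ) 1, ∀ x : ℍ, x ≠ 0 → c ≤ (P s) x)
    (hP : G0 P) (hQ : G0 (fun s => SF.DX (P s))) : G0 (fun s => isS (P s)) := by
  obtain ⟨L, hL0, hL⟩ := ((hP.mul hP).add (hQ.mul hQ)).lip
  have low : ∀ s ∈ Icc (0:ℝ) 1, ∀ x : ℍ, x ≠ 0 →
      c ≤ Real.sqrt ((P s) x ^ 2 + (SF.DX (P s)) x ^ 2) := by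
    intro s hs x hx
    apply Real.le_sqrt_of_sq_le
    have := hlow s hs x hx
    nlinarith [sq_nonneg ((SF.DX (P s)) x)]
  refine ⟨⟨c⁻¹, by positivity, fun s hs x => ?_⟩, ⟨L * c⁻¹ ^ 3, by positivity,
    fun s hs s' hs' x => ?_⟩⟩
  · by_cases hx : x = 0
    · subst hx; rw [map_zero', abs_zero]; positivity
    · have h1 := low s hs x hx
      rw [isS_apply (h s hs) hx, isf, abs_of_nonneg (by positivity)]
      exact inv_anti₀ hc h1
  · by_cases hx : x = 0
    · subst hx; rw [map_zero', map_zero', sub_zero, abs_zero]; positivity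
    · have h1 := low s hs x hx
      have h2 := low s' hs' x hx
      have h3 := hL s hs s' hs' x
      simp only [add_apply, mul_apply] at h3
      rw [isS_apply (h s hs) hx, isf, isS_apply (h s' hs') hx, isf]
      have a1 := Real.sq_sqrt (show 0 ≤ (P s) x ^ 2 + (SF.DX (P s)) x ^ 2 by positivity)
      have a2 := Real.sq_sqrt (show 0 ≤ (P s') x ^ 2 + (SF.DX (P s')) x ^ 2 by positivity)
      set A := Real.sqrt ((P s) x ^ 2 + (SF.DX (P s)) x ^ 2)
      set B := Real.sqrt ((P s') x ^ 2 + (SF.DX (P s')) x ^ 2)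
      have hA : 0 < A := lt_of_lt_of_le hc h1
      have hB : 0 < B := lt_of_lt_of_le hc h2
      have e : A⁻¹ - B⁻¹ = (B ^ 2 - A ^ 2) * (A⁻¹ * B⁻¹ * (A + B)⁻¹) := by
        field_simp; ring
      have e2 : |B ^ 2 - A ^ 2| ≤ L * |s - s'| := by
        rw [a1, a2, abs_sub_comm]
        have e3 : (P s) x ^ 2 + (SF.DX (P s)) x ^ 2 - ((P s') x ^ 2 + (SF.DX (P s')) x ^ 2)
          = (P s) x * (P s) x + (SF.DX (P s)) x * (SF.DX (P s)) x
            - ((P s') x * (P s') x + (SF.DX (P s')) x * (SF.DX (P s')) x) := by ring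
        rw [e3]; exact h3
      rw [e, abs_mul]
      have h5 : |A⁻¹ * B⁻¹ * (A + B)⁻¹| ≤ c⁻¹ ^ 3 := by
        rw [abs_of_nonneg (by positivity)]
        have b1 : A⁻¹ ≤ c⁻¹ := inv_anti₀ hc h1
        have b2 : B⁻¹ ≤ c⁻¹ := inv_anti₀ hc h2
        have b3 : (A + B)⁻¹ ≤ c⁻¹ := inv_anti₀ hc (by linarith)
        calc A⁻¹ * B⁻¹ * (A + B)⁻¹ ≤ c⁻¹ * c⁻¹ * c⁻¹ := by gcongr
          _ = c⁻¹ ^ 3 := by ring
      calc |B ^ 2 - A ^ 2| * |A⁻¹ * B⁻¹ * (A + B)⁻¹| ≤ (L * |s - s'|) * c⁻¹ ^ 3 :=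
            mul_le_mul e2 h5 (abs_nonneg _) (by positivity)
        _ = L * c⁻¹ ^ 3 * |s - s'| := by ring

/-- only values on the parameter interval matter -/
theorem GF.congr {N : ℕ} : ∀ {F G : ℝ → SF}, GF N F → (∀ s ∈ Icc (0:ℝ) 1, F s = G s) → GF N G := by
  have h0 : ∀ {F G : ℝ → SF}, G0 F → (∀ s ∈ Icc (0:ℝ) 1, F s = G s) → G0 G := by
    intro F G hF h
    obtain ⟨⟨B, hB0, hB⟩, ⟨L, hL0, hL⟩⟩ := hF
    refine ⟨⟨B, hB0, fun s hs x => ?_⟩, ⟨L, hL0, fun s hs s' hs' x => ?_⟩⟩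
    · rw [← h s hs]; exact hB s hs x
    · rw [← h s hs, ← h s' hs']; exact hL s hs s' hs' x
  induction N with
  | zero => intro F G hF h; exact h0 hF h
  | succ N ih =>
    intro F G hF h
    exact ⟨h0 hF.1 h, fun i => ih (hF.2 i) fun s hs => by rw [h s hs]⟩

theorem GF.isS {P : ℝ → SF} (h : ∀ s ∈ Icc (0:ℝ) 1, Adm (P s)) {c : ℝ} (hc : 0 < c)
    (hlow : ∀ s ∈ Icc (0:ℝ) 1, ∀ x : ℍ, x ≠ 0 → c ≤ (P s) x) :
    ∀ {N : ℕ}, GF (N + 1) P → GF N (fun s => isS (P s)) := by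
  intro N
  induction N with
  | zero => intro hP; exact G0.isS h hc hlow hP.1 (hP.2 0)
  | succ N ih =>
    intro hP
    refine ⟨G0.isS h hc hlow hP.1 (hP.2 0).1, fun i => ?_⟩
    have hS := ih hP.pred
    have hP0 : GF N P := hP.pred.pred
    have hP1 : GF N (fun s => SF.DX (P s)) := (hP.2 0).pred
    have hP2 : GF N (fun s => Dlet i (P s)) := (hP.2 i).pred
    have hP3 : GF N (fun s => Dlet i (SF.DX (P s))) := (hP.2 0).2 i
    have h1 : GF N (fun s => -(H98.isS (P s) * H98.isS (P s) * H98.isS (P s) *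
        (P s * Dlet i (P s) + SF.DX (P s) * Dlet i (SF.DX (P s))))) :=
      (((hS.mul hS).mul hS).mul ((hP0.mul hP2).add (hP1.mul hP3))).neg
    refine h1.congr fun s hs => ?_
    rw [D_isS (h s hs)]

theorem low_seg {p₀ p₁ : SF} {c : ℝ}
    (h₀ : ∀ x : ℍ, x ≠ 0 → c ≤ p₀ x) (h₁ : ∀ x : ℍ, x ≠ 0 → c ≤ p₁ x)
    {s : ℝ} (hs : s ∈ Icc (0:ℝ) 1) {x : ℍ} (hx : x ≠ 0) : c ≤ (MP85963d.seg p₀ p₁ s) x := by
  rw [seg_apply]
  obtain ⟨h0, h1⟩ := hs
  have a := mul_le_mul_of_nonneg_left (h₀ x hx) (sub_nonneg.2 h1)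
  have b := mul_le_mul_of_nonneg_left (h₁ x hx) h0
  nlinarith

theorem exists_low_seg {p₀ p₁ : SF} (h₀ : Adm p₀) (h₁ : Adm p₁) :
    ∃ c : ℝ, 0 < c ∧ ∀ s ∈ Icc (0:ℝ) 1, ∀ x : ℍ, x ≠ 0 → c ≤ (seg p₀ p₁ s) x ∧
      c ≤ (seg p₀ p₁ s) x + (DX (DX (seg p₀ p₁ s))) x := by
  obtain ⟨a₀, ha₀, ha₀'⟩ := exists_low_SF h₀.pos
  obtain ⟨a₁, ha₁, ha₁'⟩ := exists_low_SF h₁.pos
  obtain ⟨b₀, hb₀, hb₀'⟩ := exists_low_SF (F := p₀ + DX (DX p₀)) (by simpa using h₀.conv)
  obtain ⟨b₁, hb₁, hb₁'⟩ := exists_low_SF (F := p₁ + DX (DX p₁)) (by simpa using h₁.conv)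
  refine ⟨min (min a₀ a₁) (min b₀ b₁), by positivity, fun s hs x hx => ⟨?_, ?_⟩⟩
  · refine low_seg ?_ ?_ hs hx
    · intro x hx
      exact ((min_le_left _ _).trans (min_le_left _ _)).trans (ha₀' x hx)
    · intro x hx
      exact ((min_le_left _ _).trans (min_le_right _ _)).trans (ha₁' x hx)
  · have h1 : (seg p₀ p₁ s) x + (DX (DX (seg p₀ p₁ s))) x
        = (seg (p₀ + DX (DX p₀)) (p₁ + DX (DX p₁)) s) x := by
      rw [DX_seg, DX_seg, seg_apply, seg_apply, seg_apply, add_apply, add_apply]; ring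
    rw [h1]
    refine low_seg ?_ ?_ hs hx
    · intro x hx
      exact ((min_le_right _ _).trans (min_le_left _ _)).trans (hb₀' x hx)
    · intro x hx
      exact ((min_le_right _ _).trans (min_le_right _ _)).trans (hb₁' x hx)

theorem GF.isS_seg {p₀ p₁ : SF} (h₀ : Adm p₀) (h₁ : Adm p₁) (N : ℕ) :
    GF N (fun s => H98.isS (MP85963d.seg p₀ p₁ s)) := by
  obtain ⟨c, hc, hlow⟩ := exists_low_seg h₀ h₁
  exact GF.isS (fun s hs => ws_holds.seg_adm p₀ p₁ h₀ h₁ s hs) hc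
    (fun s hs x hx => (hlow s hs x hx).1) (GF.seg p₀ p₁)

theorem GF.wS_seg {p₀ p₁ : SF} (h₀ : Adm p₀) (h₁ : Adm p₁) (N : ℕ) :
    GF N (fun s => wS (MP85963d.seg p₀ p₁ s)) := by
  have hS := GF.isS_seg h₀ h₁ N
  have hP : GF (N + 2) (fun s => MP85963d.seg p₀ p₁ s) := GF.seg p₀ p₁
  have h1 : GF N (fun s => MP85963d.seg p₀ p₁ s) := hP.pred.pred
  have h2 : GF N (fun s => SF.DX (SF.DX (MP85963d.seg p₀ p₁ s))) := (hP.2 0).2 0
  refine ((h1.add h2).mul ((hS.mul hS).mul hS)).congr fun s hs => ?_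
  rw [wS_eq (ws_holds.seg_adm p₀ p₁ h₀ h₁ s hs)]

end Pool.Agent.MP85963d.H98

namespace Pool.Agent.MP85963d

open SF H98

theorem fam_holds : FamFacts where
  low p₀ p₁ h₀ h₁ := by
    obtain ⟨c, hc, hlow⟩ := exists_low_seg h₀ h₁
    have hP : GF 1 (fun s => seg p₀ p₁ s) := GF.seg p₀ p₁
    obtain ⟨B, hB0, hB⟩ := hP.zero.bd
    obtain ⟨B', hB0', hB'⟩ := (hP.2 0).bd
    have hd : 0 < c / (Real.sqrt (B ^ 2 + B' ^ 2) + 1) ^ 3 := by positivity
    refine ⟨min c (c / (Real.sqrt (B ^ 2 + B' ^ 2) + 1) ^ 3), by positivity,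
      fun s hs x hx => ⟨(min_le_left _ _).trans (hlow s hs x hx).1,
        (min_le_left _ _).trans (hlow s hs x hx).2, (min_le_right _ _).trans ?_⟩⟩
    have hadm := ws_holds.seg_adm p₀ p₁ h₀ h₁ s hs
    rw [wS_apply' hadm hx, wf]
    have h1 := (hlow s hs x hx).2
    have h2 := sq_pos_of_adm hadm hx
    have h3 := Real.sqrt_pos.2 h2
    have h4 : Real.sqrt ((seg p₀ p₁ s) x ^ 2 + (DX (seg p₀ p₁ s)) x ^ 2)
        ≤ Real.sqrt (B ^ 2 + B' ^ 2) + 1 := by
      have h5 : Real.sqrt ((seg p₀ p₁ s) x ^ 2 + (DX (seg p₀ p₁ s)) x ^ 2)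
          ≤ Real.sqrt (B ^ 2 + B' ^ 2) := by
        apply Real.sqrt_le_sqrt
        have a1 := sq_le_sq' (by linarith [(abs_le.1 (hB s hs x)).1]) (abs_le.1 (hB s hs x)).2
        have a2 := sq_le_sq' (by linarith [(abs_le.1 (hB' s hs x)).1]) (abs_le.1 (hB' s hs x)).2
        exact add_le_add a1 a2
      linarith
    exact div_le_div₀ (hc.le.trans h1) h1 (pow_pos h3 3) (pow_le_pow_left₀ h3.le h4 3)
  bd p₀ p₁ h₀ h₁ N := by
    obtain ⟨B, hB0, hB⟩ := (GF.seg (N := N) p₀ p₁).bound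
    obtain ⟨B', hB0', hB'⟩ := (GF.wS_seg h₀ h₁ N).bound
    refine ⟨max B B', fun s hs => ⟨fun l hl x => ?_, fun l hl x => ?_⟩⟩
    · exact (hB s hs l hl x).trans (le_max_left _ _)
    · exact (hB' s hs l hl x).trans (le_max_right _ _)
  cont p₀ p₁ h₀ h₁ N ε hε := by
    obtain ⟨L, hL0, hL⟩ := (GF.wS_seg h₀ h₁ N).lip
    refine ⟨ε / (L + 1), by positivity, fun s hs s' hs' hss l hl x => ?_⟩
    rw [word_sub, sub_apply]
    refine (hL s hs s' hs' l hl x).trans ?_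
    have h1 : |s - s'| * (L + 1) < ε := by
      rwa [lt_div_iff₀ (by positivity)] at hss
    have h2 := abs_nonneg (s - s')
    nlinarith

end Pool.Agent.MP85963d
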