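import Mathlib
import Pool.Agent.Lib.MP_85963d_gt.H98.Fam

/-!
# Module SMALL: small perturbations stay admissible (helper98)
-/

set_option autoImplicit false

open MeasureTheory Set Filter Topology Quaternion
open scoped Real ContDiff

namespace Pool.Agent.MP85963d.H98

open SF

/-- triangle inequality for the `L²` norm -/
theorem nrm_add_le (F G : SF) : nrm (F + G : SF) ≤ nrm F + nrm G := by
  have h1 : nrm (F + G : SF) ^ 2 = nrm F ^ 2 + 2 * ip F G + nrm G ^ 2 := by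
    rw [nrm_sq', nrm_sq', nrm_sq', ip_add_left, ip_add_right, ip_add_right, ip_comm G F]; ring
  have h2 := (abs_le.1 (abs_ip_le F.continuousOn G.continuousOn)).2
  have h3 := nrm_nonneg F
  have h4 := nrm_nonneg G
  have h5 := nrm_nonneg (F + G : SF)
  nlinarith

/-- left derivatives commute with right translations -/
theorem Z_rmul {F G : SF} {ρ : ℍ} (hρ : ρ ≠ 0) (a : ℍ)
    (h : ∀ x : ℍ, F (x * ρ) = G x) (x : ℍ) : (Z a F) (x * ρ) = (Z a G) x := by
  by_cases hx : x = 0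
  · subst hx; rw [zero_mul, map_zero', map_zero']
  · rw [Z_apply, Z_apply]
    have h1 : HasFDerivAt F (fderiv ℝ F (x * ρ)) (rm ρ x) :=
      F.hasFDerivAt (by simpa using mul_ne_zero hx hρ)
    have h2 := h1.comp x ((rm ρ).hasFDerivAt (x := x))
    have e : (F : ℍ → ℝ) ∘ (rm ρ) = G := by
      funext y; simp only [Function.comp, rm_apply, h]
    rw [e] at h2
    rw [h2.fderiv]
    simp only [ContinuousLinearMap.comp_apply, rm_apply, mul_assoc]

theorem isU_DZ {y : SF} (h : IsU y) (a : Fin 3) : IsU (DZ a y) :=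
  ⟨fun x t => Z_rmul (rot_ne_zero isImUnit_I t) _ (fun x => h.rotI x t) x,
    fun x => Z_rmul qK_ne_zero _ h.mulK x⟩

theorem abs_coord_le {v : E3} (h : ‖v‖ = 1) (a : Fin 3) : |v a| ≤ 1 := by
  have h1 : |v a| ≤ ‖v‖ := by
    have := PiLp.norm_apply_le v a
    rwa [Real.norm_eq_abs] at this
  rwa [h] at h1

theorem word_three (a : Fin 3) (F : SF) :
    ∃ i : Fin 6, ∀ F : SF, Dlet i F = DZ a F := by
  fin_cases a
  · exact ⟨3, fun _ => rfl⟩
  · exact ⟨4, fun _ => rfl⟩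
  · exact ⟨5, fun _ => rfl⟩

theorem exists_let (a : Fin 3) : ∃ i : Fin 6, ∀ F : SF, Dlet i F = DZ a F := word_three a 0

theorem nrm_Lap_le {F : SF} {K : ℝ} (h : ∀ a : Fin 3, nrm (DZ a (DZ a F)) ≤ K) :
    nrm (Lap F) ≤ 3 * K := by
  rw [Lap_eq]
  have h1 := nrm_add_le (DZ 0 (DZ 0 F) + DZ 1 (DZ 1 F)) (DZ 2 (DZ 2 F))
  have h2 := nrm_add_le (DZ 0 (DZ 0 F)) (DZ 1 (DZ 1 F))
  have h3 := h 0
  have h4 := h 1
  have h5 := h 2
  linarith

/-- sup bounds of u-functions and of their second left derivatives -/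
theorem sup_bounds (hS : SobStatement) (hN : NormFacts) : ∃ C : ℝ, 0 ≤ C ∧ ∀ y : SF, IsU y →
    (∀ x : ℍ, |y x| ≤ C * ener y) ∧
    (∀ (a b : Fin 3) (x : ℍ), |(DZ a (DZ b y)) x| ≤ C * ener y) := by
  obtain ⟨S, hS⟩ := hS
  obtain ⟨C, hC⟩ := hN.interp 1 one_pos
  have key : ∀ (y : SF) (l : List (Fin 6)), l.length ≤ 3 → nrm (word l y) ≤ (1 + |C|) * ener y := by
    intro y l hl
    have h1 := hC y l hl
    have h2 := nrm_nonneg (Lap (Lap y))
    have h3 := nrm_nonneg y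
    have h4 := le_abs_self C
    have h5 : 0 ≤ |C| := abs_nonneg C
    rw [ener]
    nlinarith [mul_nonneg h5 h2, mul_le_mul_of_nonneg_right h4 h3]
  have four : ∀ (y : SF) (a b c : Fin 3), nrm (DZ c (DZ c (DZ a (DZ b y)))) ≤ nrm (Lap (Lap y)) := by
    intro y a b c
    obtain ⟨i, hi⟩ := exists_let a
    obtain ⟨j, hj⟩ := exists_let b
    obtain ⟨k, hk⟩ := exists_let c
    have := hN.four y [k, k, i, j] rfl
    simpa only [word_cons, word_nil, hi, hj, hk] using this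
  have two : ∀ (y : SF) (a b : Fin 3), nrm (DZ a (DZ b y)) ≤ (1 + |C|) * ener y := by
    intro y a b
    obtain ⟨i, hi⟩ := exists_let a
    obtain ⟨j, hj⟩ := exists_let b
    have := key y [i, j] (by simp)
    simpa only [word_cons, word_nil, hi, hj] using this
  have hC0 : 0 ≤ |C| := abs_nonneg C
  have hS0 : 0 ≤ |S| := abs_nonneg S
  refine ⟨|S| * (4 + 4 * |C|), by positivity, fun y hy => ⟨fun x => ?_, fun a b x => ?_⟩⟩
  · have h1 := hS y hy x
    have h2 : nrm y ≤ ener y := by rw [ener]; linarith [nrm_nonneg (Lap (Lap y))]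
    have h3 : nrm (Lap y) ≤ 3 * ((1 + |C|) * ener y) := nrm_Lap_le fun a => two y a a
    have h4 : 0 ≤ ener y := by rw [ener]; linarith [nrm_nonneg (Lap (Lap y)), nrm_nonneg y]
    have h5 : nrm y + nrm (Lap y) ≤ (4 + 4 * |C|) * ener y := by
      nlinarith [mul_nonneg hC0 h4]
    calc |y x| ≤ S * (nrm y + nrm (Lap y)) := h1
      _ ≤ |S| * (nrm y + nrm (Lap y)) := mul_le_mul_of_nonneg_right (le_abs_self S)
          (add_nonneg (nrm_nonneg _) (nrm_nonneg _))
      _ ≤ |S| * ((4 + 4 * |C|) * ener y) := mul_le_mul_of_nonneg_left h5 hS0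
      _ = _ := by ring
  · have h1 := hS _ (isU_DZ (isU_DZ hy b) a) x
    have h2 := two y a b
    have h3 : nrm (Lap (DZ a (DZ b y))) ≤ 3 * nrm (Lap (Lap y)) :=
      nrm_Lap_le fun c => four y a b c
    have h6 : nrm (Lap (Lap y)) ≤ ener y := by rw [ener]; linarith [nrm_nonneg y]
    have h4 : 0 ≤ ener y := by rw [ener]; linarith [nrm_nonneg (Lap (Lap y)), nrm_nonneg y]
    have h5 : nrm (DZ a (DZ b y)) + nrm (Lap (DZ a (DZ b y))) ≤ (4 + 4 * |C|) * ener y := by
      nlinarith [mul_nonneg hC0 h4]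
    calc |(DZ a (DZ b y)) x| ≤ S * (nrm (DZ a (DZ b y)) + nrm (Lap (DZ a (DZ b y)))) := h1
      _ ≤ |S| * (nrm (DZ a (DZ b y)) + nrm (Lap (DZ a (DZ b y)))) :=
          mul_le_mul_of_nonneg_right (le_abs_self S) (add_nonneg (nrm_nonneg _) (nrm_nonneg _))
      _ ≤ |S| * ((4 + 4 * |C|) * ener y) := mul_le_mul_of_nonneg_left h5 hS0
      _ = _ := by ring

/-- pointwise bound of `X²` by the left derivatives -/
theorem abs_DXDX_le (hC : CasFacts) {y : SF} {K : ℝ}
    (h : ∀ (a b : Fin 3) (x : ℍ), |(DZ a (DZ b y)) x| ≤ K) (x : ℍ) :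
    |(DX (DX y)) x| ≤ 9 * K := by
  by_cases hx : x = 0
  · subst hx
    rw [map_zero', abs_zero]
    have := (abs_nonneg _).trans (h 0 0 0)
    positivity
  obtain ⟨e, u, v, hf, hX, -, -⟩ := hC.frame
  have hX' : ∀ F : SF, (DX F) x = ∑ a, (e a) x * (DZ a F) x := by
    intro F
    rw [hX F, sum_apply]
    simp only [mul_apply]
  have he : ∀ a, |(e a) x| ≤ 1 := by
    intro a
    rw [(hf a x hx).1]
    exact abs_coord_le (norm_fe hx) a
  have gen : ∀ (F : SF) (L : ℝ), (∀ a, |(DZ a F) x| ≤ L) → |(DX F) x| ≤ 3 * L := by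
    intro F L hL
    rw [hX' F]
    refine (Finset.abs_sum_le_sum_abs _ _).trans ?_
    have h1 : ∀ a ∈ (Finset.univ : Finset (Fin 3)), |(e a) x * (DZ a F) x| ≤ L := by
      intro a _
      rw [abs_mul]
      calc |(e a) x| * |(DZ a F) x| ≤ 1 * L :=
            mul_le_mul (he a) (hL a) (abs_nonneg _) zero_le_one
        _ = L := one_mul _
    calc ∑ a, |(e a) x * (DZ a F) x| ≤ ∑ _a : Fin 3, L := Finset.sum_le_sum h1
      _ = 3 * L := by simp
  have h1 : ∀ a, |(DZ a (DX y)) x| ≤ 3 * K := by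
    intro a
    rw [← DX_DZ]
    exact gen _ _ fun b => h b a x
  have := gen _ _ h1
  linarith

theorem isU_add {F G : SF} (hF : IsU F) (hG : IsU G) : IsU (F + G : SF) := by
  refine ⟨fun x t => ?_, fun x => ?_⟩
  · rw [add_apply, add_apply, hF.rotI, hG.rotI]
  · rw [add_apply, add_apply, hF.mulK, hG.mulK]

end Pool.Agent.MP85963d.H98

namespace Pool.Agent.MP85963d

open SF H98

theorem small_of (hS : SobStatement) (hN : NormFacts) (hC : CasFacts) : SmallStatement := by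
  intro p₀ p₁ h₀ h₁
  obtain ⟨c, hc, hlow⟩ := exists_low_seg h₀ h₁
  obtain ⟨C, hC0, hb⟩ := sup_bounds hS hN
  refine ⟨c / (20 * (C + 1)), by positivity, c / 2, by positivity, fun s hs y hy hey x hx => ?_⟩
  obtain ⟨b1, b2⟩ := hb y hy
  have b3 := abs_DXDX_le hC b2
  have hE : C * ener y ≤ c / 20 := by
    have h1 : C * ener y ≤ C * (c / (20 * (C + 1))) := mul_le_mul_of_nonneg_left hey hC0
    have h2 : C * (c / (20 * (C + 1))) ≤ c / 20 := by
      rw [mul_div_assoc', div_le_div_iff₀ (by positivity) (by positivity)]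
      nlinarith
    linarith
  have p1 : ∀ x : ℍ, x ≠ 0 → c / 2 ≤ (seg p₀ p₁ s + y) x := by
    intro x hx
    rw [add_apply]
    have := (hlow s hs x hx).1
    have := (abs_le.1 (b1 x)).1
    linarith
  have p2 : ∀ x : ℍ, x ≠ 0 → c / 2 ≤ (seg p₀ p₁ s + y) x + (DX (DX (seg p₀ p₁ s + y))) x := by
    intro x hx
    rw [add_apply, map_add, map_add, add_apply]
    have := (hlow s hs x hx).2
    have := (abs_le.1 (b1 x)).1
    have := (abs_le.1 (b3 x)).1
    linarith
  refine ⟨⟨isU_add (ws_holds.seg_adm p₀ p₁ h₀ h₁ s hs).isU hy, fun x hx => ?_, fun x hx => ?_⟩,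
    p1 x hx, p2 x hx⟩
  · have := p1 x hx; linarith
  · have := p2 x hx; linarith

end Pool.Agent.MP85963d
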